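import Pool.Agent.W787.PS.StmA

/-!
# Poincare inequality on discs
-/

set_option autoImplicit false

open MeasureTheory Set Metric Filter Topology

noncomputable section

namespace Pool.Agent.W253.PS

open Pool.Agent.W787.PS

theorem nsq_nonneg (w : ℂ → ℝ) (x : ℂ) : 0 ≤ nsq w x := by
  unfold nsq
  positivity

theorem nsq_cont {w : ℂ → ℝ} {a : ℂ} {R : ℝ} (hw : ContDiffOn ℝ 1 w (ball a R)) :
    ContinuousOn (nsq w) (ball a R) := by
  have h1 : ContinuousOn (fderiv ℝ w) (ball a R) :=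
    hw.continuousOn_fderiv_of_isOpen isOpen_ball le_rfl
  unfold nsq
  exact ((h1.clm_apply continuousOn_const).pow 2).add ((h1.clm_apply continuousOn_const).pow 2)

theorem fderiv_sq_le (w : ℂ → ℝ) (z v : ℂ) : (fderiv ℝ w z v) ^ 2 ≤ ‖v‖ ^ 2 * nsq w z := by
  have h1 : fderiv ℝ w z v = v.re * fderiv ℝ w z 1 + v.im * fderiv ℝ w z Complex.I := by
    have h2 : v = v.re • (1 : ℂ) + v.im • Complex.I := by
      apply Complex.ext <;> simp
    conv_lhs => rw [h2]
    rw [map_add, map_smul, map_smul, smul_eq_mul, smul_eq_mul]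
  rw [h1, Complex.sq_norm, Complex.normSq_apply]
  unfold nsq
  nlinarith [sq_nonneg (v.re * fderiv ℝ w z Complex.I - v.im * fderiv ℝ w z 1)]

/-- a point on the segment -/
def pt (x y : ℂ) (s : ℝ) : ℂ := (1 - s) • x + s • y

theorem pt_mem {a x y : ℂ} {r s : ℝ} (hx : x ∈ ball a r) (hy : y ∈ ball a r) (hs : s ∈ Icc (0 : ℝ) 1) :
    pt x y s ∈ ball a r :=
  (convex_ball a r) hx hy (by linarith [hs.2]) hs.1 (by ring)

theorem seg {w : ℂ → ℝ} {a : ℂ} {r : ℝ} (hw : ContDiffOn ℝ 1 w (ball a r)) {x y : ℂ}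
    (hx : x ∈ ball a r) (hy : y ∈ ball a r) :
    (w x - w y) ^ 2 ≤ 4 * r ^ 2 * ∫ s in Ioc (0 : ℝ) 1, nsq w (pt x y s) := by
  have hmaps : ∀ s ∈ Icc (0 : ℝ) 1, pt x y s ∈ ball a r := fun s hs => pt_mem hx hy hs
  have hptc : Continuous (pt x y) := by
    unfold pt
    fun_prop
  have hfc : ContinuousOn (fun s : ℝ => fderiv ℝ w (pt x y s) (y - x)) (Icc 0 1) := by
    have h1 : ContinuousOn (fderiv ℝ w) (ball a r) :=
      hw.continuousOn_fderiv_of_isOpen isOpen_ball le_rfl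
    exact (h1.comp hptc.continuousOn hmaps).clm_apply continuousOn_const
  have hnc : ContinuousOn (fun s : ℝ => nsq w (pt x y s)) (Icc 0 1) :=
    (nsq_cont hw).comp hptc.continuousOn hmaps
  have hder : ∀ s ∈ uIcc (0 : ℝ) 1, HasDerivAt (fun s : ℝ => w (pt x y s))
      (fderiv ℝ w (pt x y s) (y - x)) s := by
    intro s hs
    rw [uIcc_of_le zero_le_one] at hs
    have h1 : HasFDerivAt w (fderiv ℝ w (pt x y s)) (pt x y s) :=
      ((hw.differentiableOn one_ne_zero).differentiableAt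
        (isOpen_ball.mem_nhds (hmaps s hs))).hasFDerivAt
    have h2 : HasDerivAt (pt x y) (y - x) s := by
      have h3 : HasDerivAt (fun s : ℝ => (1 - s) • x + s • y) ((-1 : ℝ) • x + (1 : ℝ) • y) s :=
        (((hasDerivAt_id s).const_sub 1).smul_const x).add ((hasDerivAt_id s).smul_const y)
      have h4 : (-1 : ℝ) • x + (1 : ℝ) • y = y - x := by
        rw [neg_one_smul, one_smul]
        ring
      rw [h4] at h3
      exact h3
    exact h1.comp_hasDerivAt s h2
  have hint : IntervalIntegrable (fun s : ℝ => fderiv ℝ w (pt x y s) (y - x)) volume 0 1 := by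
    refine ContinuousOn.intervalIntegrable ?_
    rwa [uIcc_of_le zero_le_one]
  have hftc := intervalIntegral.integral_eq_sub_of_hasDerivAt hder hint
  have hp1 : pt x y 1 = y := by simp [pt]
  have hp0 : pt x y 0 = x := by simp [pt]
  rw [hp1, hp0, intervalIntegral.integral_of_le zero_le_one] at hftc
  set g : ℝ → ℝ := fun s => fderiv ℝ w (pt x y s) (y - x) with hg
  set c : ℝ := w y - w x with hc
  have hgi : IntegrableOn g (Ioc 0 1) := (hfc.integrableOn_Icc).mono_set Ioc_subset_Icc_self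
  have hg2i : IntegrableOn (fun s => g s ^ 2) (Ioc 0 1) :=
    ((hfc.pow 2).integrableOn_Icc).mono_set Ioc_subset_Icc_self
  have hni : IntegrableOn (fun s => nsq w (pt x y s)) (Ioc 0 1) :=
    (hnc.integrableOn_Icc).mono_set Ioc_subset_Icc_self
  -- Cauchy-Schwarz
  have h1 : 0 ≤ ∫ s in Ioc (0 : ℝ) 1, (g s - c) ^ 2 := integral_nonneg fun s => sq_nonneg _
  have h2 : ∫ s in Ioc (0 : ℝ) 1, (g s - c) ^ 2 = (∫ s in Ioc (0 : ℝ) 1, g s ^ 2) - c ^ 2 := by
    have h3 : ∀ s, (g s - c) ^ 2 = g s ^ 2 - 2 * c * g s + c ^ 2 := fun s => by ring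
    simp only [h3]
    have hci : IntegrableOn (fun _ : ℝ => c ^ 2) (Ioc (0 : ℝ) 1) :=
      continuousOn_const.integrableOn_Icc.mono_set Ioc_subset_Icc_self
    have h4 : IntegrableOn (fun s => g s ^ 2 - 2 * c * g s) (Ioc 0 1) :=
      hg2i.sub (hgi.const_mul (2 * c))
    rw [integral_add h4 hci, integral_sub hg2i (hgi.const_mul (2 * c)), integral_const_mul,
      setIntegral_const, hftc]
    simp
    ring
  have h3 : c ^ 2 ≤ ∫ s in Ioc (0 : ℝ) 1, g s ^ 2 := by linarith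
  have hxy : ‖y - x‖ ≤ 2 * r := by
    have h5 := mem_ball_iff_norm.1 hx
    have h6 := mem_ball_iff_norm.1 hy
    calc ‖y - x‖ = ‖(y - a) - (x - a)‖ := by congr 1; ring
      _ ≤ ‖y - a‖ + ‖x - a‖ := norm_sub_le _ _
      _ ≤ 2 * r := by linarith
  have h4 : ∫ s in Ioc (0 : ℝ) 1, g s ^ 2 ≤
      ∫ s in Ioc (0 : ℝ) 1, 4 * r ^ 2 * nsq w (pt x y s) := by
    refine integral_mono hg2i (hni.const_mul _) fun s => ?_
    refine (fderiv_sq_le w _ _).trans (mul_le_mul_of_nonneg_right ?_ (nsq_nonneg _ _))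
    nlinarith [norm_nonneg (y - x)]
  rw [integral_const_mul] at h4
  have h5 : (w x - w y) ^ 2 = c ^ 2 := by rw [hc]; ring
  rw [h5]
  exact h3.trans h4

theorem lint_affine (h : ℂ → ENNReal) (hh : Measurable h) {c : ℝ} (hc : 1 / 2 ≤ c) (b : ℂ) :
    ∫⁻ x, h (c • x + b) ≤ 4 * ∫⁻ x, h x := by
  have hc0 : c ≠ 0 := by
    intro h0
    rw [h0] at hc
    norm_num at hc
  have h1 : ∫⁻ x, h (c • x + b) = ∫⁻ z, h (z + b) ∂(Measure.map (fun x : ℂ => c • x) volume) := by
    exact (lintegral_map (hh.comp (measurable_add_const b)) (measurable_const_smul c)).symm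
  rw [h1, Measure.map_addHaar_smul _ hc0, lintegral_smul_measure, smul_eq_mul,
    lintegral_add_right_eq_self h b, Complex.finrank_real_complex]
  refine mul_le_mul_left ?_ _
  have h2 : |(c ^ 2)⁻¹| ≤ 4 := by
    rw [abs_of_nonneg (by positivity)]
    rw [inv_le_comm₀ (by positivity) (by norm_num)]
    nlinarith
  calc ENNReal.ofReal |(c ^ 2)⁻¹| ≤ ENNReal.ofReal 4 := ENNReal.ofReal_le_ofReal h2
    _ = 4 := by norm_num

/-- integral over a part of the segment -/
def J (h : ℂ → ENNReal) (s0 s1 : ℝ) (x y : ℂ) : ENNReal := ∫⁻ s in Ioc s0 s1, h (pt x y s)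

theorem meas_K (h : ℂ → ENNReal) (hh : Measurable h) :
    Measurable fun p : (ℂ × ℂ) × ℝ => h (pt p.1.1 p.1.2 p.2) := by
  refine hh.comp ?_
  unfold pt
  fun_prop

theorem T2 (h : ℂ → ENNReal) (hh : Measurable h) (μ : Measure ℂ) [SFinite μ]
    (hμ : μ ≤ volume) :
    ∫⁻ x, ∫⁻ y, J h (1 / 2) 1 x y ∂μ ∂μ ≤ 2 * μ univ * ∫⁻ x, h x := by
  have h1 : ∀ x, ∫⁻ y, J h (1 / 2) 1 x y ∂μ ≤ 2 * ∫⁻ z, h z := by
    intro x
    unfold J
    rw [lintegral_lintegral_swap]
    · calc ∫⁻ s in Ioc (1 / 2 : ℝ) 1, ∫⁻ y, h (pt x y s) ∂μ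
          ≤ ∫⁻ _s in Ioc (1 / 2 : ℝ) 1, 4 * ∫⁻ z, h z := by
            refine setLIntegral_mono measurable_const fun s hs => ?_
            calc ∫⁻ y, h (pt x y s) ∂μ ≤ ∫⁻ y, h (pt x y s) := lintegral_mono' hμ le_rfl
              _ = ∫⁻ y, h (s • y + (1 - s) • x) := by
                  simp only [pt, add_comm]
              _ ≤ 4 * ∫⁻ z, h z := lint_affine h hh hs.1.le _
        _ = 2 * ∫⁻ z, h z := by
            rw [lintegral_const, Measure.restrict_apply_univ, Real.volume_Ioc]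
            have : ENNReal.ofReal (1 - 1 / 2) = 1 / 2 := by
              rw [show (1 - 1 / 2 : ℝ) = 1 / 2 by norm_num, ENNReal.ofReal_div_of_pos two_pos]
              norm_num
            rw [this]
            have h4 : (4 : ENNReal) * (1 / 2) = 2 := by
              rw [show (4 : ENNReal) = 2 * 2 by norm_num, mul_assoc, one_div,
                ENNReal.mul_inv_cancel two_ne_zero ENNReal.ofNat_ne_top, mul_one]
            calc 4 * (∫⁻ z, h z) * (1 / 2) = 4 * (1 / 2) * ∫⁻ z, h z := by ring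
              _ = _ := by rw [h4]
    · exact ((meas_K h hh).comp
        ((measurable_const.prodMk measurable_fst).prodMk measurable_snd)).aemeasurable
  calc ∫⁻ x, ∫⁻ y, J h (1 / 2) 1 x y ∂μ ∂μ
      ≤ ∫⁻ _x, (2 * ∫⁻ z, h z) ∂μ := lintegral_mono h1
    _ = 2 * μ univ * ∫⁻ x, h x := by rw [lintegral_const]; ring

theorem T1 (h : ℂ → ENNReal) (hh : Measurable h) (μ : Measure ℂ) [SFinite μ]
    (hμ : μ ≤ volume) :
    ∫⁻ x, ∫⁻ y, J h 0 (1 / 2) x y ∂μ ∂μ ≤ 2 * μ univ * ∫⁻ x, h x := by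
  have h0 : ∫⁻ x, ∫⁻ y, J h 0 (1 / 2) x y ∂μ ∂μ =
      ∫⁻ y, ∫⁻ x, J h 0 (1 / 2) x y ∂μ ∂μ := by
    refine lintegral_lintegral_swap ?_
    exact ((meas_K h hh).lintegral_prod_right' (ν := volume.restrict (Ioc (0 : ℝ) (1 / 2)))).aemeasurable
  have h1 : ∀ y, ∫⁻ x, J h 0 (1 / 2) x y ∂μ ≤ 2 * ∫⁻ z, h z := by
    intro y
    unfold J
    rw [lintegral_lintegral_swap]
    · calc ∫⁻ s in Ioc (0 : ℝ) (1 / 2), ∫⁻ x, h (pt x y s) ∂μ
          ≤ ∫⁻ _s in Ioc (0 : ℝ) (1 / 2), 4 * ∫⁻ z, h z := by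
            refine setLIntegral_mono measurable_const fun s hs => ?_
            calc ∫⁻ x, h (pt x y s) ∂μ ≤ ∫⁻ x, h (pt x y s) := lintegral_mono' hμ le_rfl
              _ ≤ 4 * ∫⁻ z, h z := lint_affine h hh (by linarith [hs.2]) _
        _ = 2 * ∫⁻ z, h z := by
            rw [lintegral_const, Measure.restrict_apply_univ, Real.volume_Ioc]
            have : ENNReal.ofReal (1 / 2 - 0) = 1 / 2 := by
              rw [sub_zero, ENNReal.ofReal_div_of_pos two_pos]
              norm_num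
            rw [this]
            have h4 : (4 : ENNReal) * (1 / 2) = 2 := by
              rw [show (4 : ENNReal) = 2 * 2 by norm_num, mul_assoc, one_div,
                ENNReal.mul_inv_cancel two_ne_zero ENNReal.ofNat_ne_top, mul_one]
            calc 4 * (∫⁻ z, h z) * (1 / 2) = 4 * (1 / 2) * ∫⁻ z, h z := by ring
              _ = _ := by rw [h4]
    · exact ((meas_K h hh).comp
        ((measurable_fst.prodMk measurable_const).prodMk measurable_snd)).aemeasurable
  rw [h0]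
  calc ∫⁻ y, ∫⁻ x, J h 0 (1 / 2) x y ∂μ ∂μ
      ≤ ∫⁻ _y, (2 * ∫⁻ z, h z) ∂μ := lintegral_mono h1
    _ = 2 * μ univ * ∫⁻ x, h x := by rw [lintegral_const]; ring

theorem TT (h : ℂ → ENNReal) (hh : Measurable h) (μ : Measure ℂ) [SFinite μ]
    (hμ : μ ≤ volume) :
    ∫⁻ x, ∫⁻ y, J h 0 1 x y ∂μ ∂μ ≤ 4 * μ univ * ∫⁻ x, h x := by
  have h1 : ∀ x y, J h 0 1 x y = J h 0 (1 / 2) x y + J h (1 / 2) 1 x y := by
    intro x y
    unfold J
    rw [← lintegral_union measurableSet_Ioc (Ioc_disjoint_Ioc_of_le le_rfl),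
      Ioc_union_Ioc_eq_Ioc (by norm_num) (by norm_num)]
  have hm1 : Measurable fun p : ℂ × ℂ => J h 0 (1 / 2) p.1 p.2 :=
    (meas_K h hh).lintegral_prod_right' (ν := volume.restrict (Ioc (0 : ℝ) (1 / 2)))
  calc ∫⁻ x, ∫⁻ y, J h 0 1 x y ∂μ ∂μ
      = ∫⁻ x, ((∫⁻ y, J h 0 (1 / 2) x y ∂μ) +
          ∫⁻ y, J h (1 / 2) 1 x y ∂μ) ∂μ := by
        refine lintegral_congr fun x => ?_
        simp only [h1]
        exact lintegral_add_left (hm1.comp (measurable_const.prodMk measurable_id)) _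
    _ = (∫⁻ x, ∫⁻ y, J h 0 (1 / 2) x y ∂μ ∂μ) +
          ∫⁻ x, ∫⁻ y, J h (1 / 2) 1 x y ∂μ ∂μ :=
        lintegral_add_left (hm1.lintegral_prod_right' (ν := μ)) _
    _ ≤ 2 * μ univ * (∫⁻ x, h x) + 2 * μ univ * ∫⁻ x, h x :=
        add_le_add (T1 h hh μ hμ) (T2 h hh μ hμ)
    _ = 4 * μ univ * ∫⁻ x, h x := by ring

theorem CJ (h : ℂ → ENNReal) (hh : Measurable h) (μ : Measure ℂ) [SFinite μ]
    (hμ : μ ≤ volume) (c : ENNReal) :
    ∫⁻ x, ∫⁻ y, c * J h 0 1 x y ∂μ ∂μ ≤ c * (4 * μ univ * ∫⁻ x, h x) := by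
  have hm1 : Measurable fun p : ℂ × ℂ => J h 0 1 p.1 p.2 :=
    (meas_K h hh).lintegral_prod_right' (ν := volume.restrict (Ioc (0 : ℝ) 1))
  have h1 : ∀ x, ∫⁻ y, c * J h 0 1 x y ∂μ = c * ∫⁻ y, J h 0 1 x y ∂μ :=
    fun x => lintegral_const_mul _ (hm1.comp (measurable_const.prodMk measurable_id))
  have h2 : ∫⁻ x, ∫⁻ y, c * J h 0 1 x y ∂μ ∂μ = c * ∫⁻ x, ∫⁻ y, J h 0 1 x y ∂μ ∂μ := by
    simp only [h1]
    exact lintegral_const_mul _ (hm1.lintegral_prod_right' (ν := μ))
  rw [h2]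
  exact mul_le_mul_right (TT h hh μ hμ) _

theorem poi : Pool.Agent.W787.PS.S_POI := by
  refine ⟨16, by norm_num, ?_⟩
  intro w a r R hr hrR hw
  set B : Set ℂ := ball a r with hB
  have hsub : closedBall a r ⊆ ball a R := closedBall_subset_ball hrR
  have hwc : ContinuousOn w (closedBall a r) := hw.continuousOn.mono hsub
  have hnc : ContinuousOn (nsq w) (closedBall a r) := (nsq_cont hw).mono hsub
  have hwB : ContDiffOn ℝ 1 w (ball a r) := hw.mono (ball_subset_ball hrR.le)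
  have hint : ∀ f : ℂ → ℝ, ContinuousOn f (closedBall a r) → IntegrableOn f B := fun f hf =>
    (hf.integrableOn_compact (isCompact_closedBall a r)).mono_set ball_subset_closedBall
  have hV : volume.real B = Real.pi * r ^ 2 := by
    rw [Measure.real, hB, Complex.volume_ball]
    simp only [ENNReal.toReal_mul, ENNReal.toReal_pow, ENNReal.toReal_ofReal hr.le,
      ENNReal.coe_toReal]
    rw [mul_comm]
    rfl
  have hVpos : 0 < Real.pi * r ^ 2 := by positivity
  set m : ℝ := avg w a r with hm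
  have hmint : ∫ x in B, w x = Real.pi * r ^ 2 * m := by
    rw [hm]
    unfold avg
    rw [← mul_assoc, mul_inv_cancel₀ hVpos.ne', one_mul]
  have hwi := hint w hwc
  have hw2i : IntegrableOn (fun x => w x ^ 2) B := hint _ (hwc.pow 2)
  -- the average is optimal
  have hexp : ∀ c : ℝ, ∫ x in B, (w x - c) ^ 2 =
      (∫ x in B, w x ^ 2) - 2 * c * (Real.pi * r ^ 2 * m) + c ^ 2 * (Real.pi * r ^ 2) := by
    intro c
    have h1 : ∀ x, (w x - c) ^ 2 = w x ^ 2 - 2 * c * w x + c ^ 2 := fun x => by ring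
    simp only [h1]
    have hci : IntegrableOn (fun _ : ℂ => c ^ 2) B := hint _ continuousOn_const
    have h2 : IntegrableOn (fun x => w x ^ 2 - 2 * c * w x) B := hw2i.sub (hwi.const_mul (2 * c))
    rw [integral_add h2 hci, integral_sub hw2i (hwi.const_mul (2 * c)), integral_const_mul,
      setIntegral_const, hmint, hV, smul_eq_mul]
    ring
  have hopt : ∀ c : ℝ, ∫ x in B, (w x - m) ^ 2 ≤ ∫ x in B, (w x - c) ^ 2 := by
    intro c
    rw [hexp m, hexp c]
    nlinarith [mul_nonneg hVpos.le (sq_nonneg (c - m))]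
  -- the double integral
  set h : ℂ → ENNReal := B.indicator fun z => ENNReal.ofReal (nsq w z) with hh
  have hmeas : Measurable h := by
    have h1 : Measurable (nsq w) := by
      unfold nsq
      exact ((measurable_fderiv_apply_const ℝ w 1).pow_const 2).add
        ((measurable_fderiv_apply_const ℝ w Complex.I).pow_const 2)
    exact h1.ennreal_ofReal.indicator measurableSet_ball
  have hseg : ∀ x ∈ B, ∀ y ∈ B, ENNReal.ofReal ((w x - w y) ^ 2) ≤
      ENNReal.ofReal (4 * r ^ 2) * ∫⁻ s in Ioc (0 : ℝ) 1, h (pt x y s) := by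
    intro x hx y hy
    have h1 := seg hwB hx hy
    have hptc : Continuous (pt x y) := by
      unfold pt
      fun_prop
    have hni : IntegrableOn (fun s => nsq w (pt x y s)) (Ioc 0 1) := by
      have h2 : ContinuousOn (fun s : ℝ => nsq w (pt x y s)) (Icc 0 1) :=
        (nsq_cont hwB).comp hptc.continuousOn fun s hs => pt_mem hx hy hs
      exact h2.integrableOn_Icc.mono_set Ioc_subset_Icc_self
    calc ENNReal.ofReal ((w x - w y) ^ 2)
        ≤ ENNReal.ofReal (4 * r ^ 2 * ∫ s in Ioc (0 : ℝ) 1, nsq w (pt x y s)) :=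
          ENNReal.ofReal_le_ofReal h1
      _ = ENNReal.ofReal (4 * r ^ 2) * ∫⁻ s in Ioc (0 : ℝ) 1, ENNReal.ofReal (nsq w (pt x y s)) := by
          rw [ENNReal.ofReal_mul (by positivity), ofReal_integral_eq_lintegral_ofReal hni
            (Filter.Eventually.of_forall fun s => nsq_nonneg _ _)]
      _ = ENNReal.ofReal (4 * r ^ 2) * ∫⁻ s in Ioc (0 : ℝ) 1, h (pt x y s) := by
          congr 1
          refine setLIntegral_congr_fun measurableSet_Ioc fun s hs => ?_
          have h2 : pt x y s ∈ B := pt_mem hx hy ⟨hs.1.le, hs.2⟩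
          rw [hh, indicator_of_mem h2]
  have hμV : (volume.restrict B) univ = ENNReal.ofReal (Real.pi * r ^ 2) := by
    rw [Measure.restrict_apply_univ, ← hV, Measure.real, ENNReal.ofReal_toReal]
    exact measure_ball_lt_top.ne
  have hA0 : 0 ≤ ∫ x in B, (w x - m) ^ 2 := integral_nonneg fun x => sq_nonneg _
  have hN0 : 0 ≤ ∫ x in B, nsq w x := integral_nonneg fun x => nsq_nonneg _ _
  have hhint : ∫⁻ z, h z = ENNReal.ofReal (∫ x in B, nsq w x) := by
    rw [hh, lintegral_indicator measurableSet_ball,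
      ofReal_integral_eq_lintegral_ofReal (hint _ hnc)
        (Filter.Eventually.of_forall fun s => nsq_nonneg _ _)]
  have hmain : ENNReal.ofReal (∫ x in B, (w x - m) ^ 2) * ENNReal.ofReal (Real.pi * r ^ 2) ≤
      ENNReal.ofReal (4 * r ^ 2) * (4 * ENNReal.ofReal (Real.pi * r ^ 2) *
        ENNReal.ofReal (∫ x in B, nsq w x)) := by
    have h5 : ∫⁻ _x, ENNReal.ofReal (∫ x in B, (w x - m) ^ 2) ∂(volume.restrict B) ≤
        ∫⁻ x, ∫⁻ y, ENNReal.ofReal (4 * r ^ 2) * J h 0 1 x y ∂(volume.restrict B)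
          ∂(volume.restrict B) := by
      refine setLIntegral_mono' measurableSet_ball fun x hx => ?_
      have hi : IntegrableOn (fun y => (w y - w x) ^ 2) B :=
        hint _ ((hwc.sub continuousOn_const).pow 2)
      have h6 : ENNReal.ofReal (∫ y in B, (w y - w x) ^ 2) =
          ∫⁻ y in B, ENNReal.ofReal ((w y - w x) ^ 2) :=
        ofReal_integral_eq_lintegral_ofReal hi (Filter.Eventually.of_forall fun s => sq_nonneg _)
      have h7 : ∫⁻ y in B, ENNReal.ofReal ((w y - w x) ^ 2) ≤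
          ∫⁻ y, ENNReal.ofReal (4 * r ^ 2) * J h 0 1 x y ∂(volume.restrict B) := by
        refine setLIntegral_mono' measurableSet_ball fun y hy => ?_
        have h1 : (w y - w x) ^ 2 = (w x - w y) ^ 2 := by ring
        rw [h1]
        exact hseg x hx y hy
      exact (ENNReal.ofReal_le_ofReal (hopt (w x))).trans (h6.le.trans h7)
    rw [lintegral_const] at h5
    have h6 := CJ h hmeas (volume.restrict B) Measure.restrict_le_self (ENNReal.ofReal (4 * r ^ 2))
    have h7 := h5.trans h6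
    rw [hμV, hhint] at h7
    exact h7
  have h4 : (4 : ENNReal) = ENNReal.ofReal 4 := by norm_num
  rw [h4, ← ENNReal.ofReal_mul hA0, ← ENNReal.ofReal_mul (by norm_num),
    ← ENNReal.ofReal_mul (by positivity), ← ENNReal.ofReal_mul (by positivity),
    ENNReal.ofReal_le_ofReal_iff (by positivity)] at hmain
  have hfin : (∫ x in B, (w x - m) ^ 2) * (Real.pi * r ^ 2) ≤
      (16 * r ^ 2 * ∫ x in B, nsq w x) * (Real.pi * r ^ 2) := by
    calc _ ≤ _ := hmain
      _ = _ := by ring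
  exact le_of_mul_le_mul_right hfin hVpos

end Pool.Agent.W253.PS
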